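import Pool.Agent.H86.ZG.Cz
import Pool.Agent.H86.ZG.Uz
import Pool.Agent.H86.T4H.Gd

/-!
Growth in the `ℤ_S`-towers (assembly, no row).
-/

set_option autoImplicit false
open scoped Classical

open WithZero WeierstrassCurve IsDedekindDomain NumberField Pool.Agent.H10 Pool.Agent.H11 H78D
  H5SW H86G

namespace H86Z

/-- Growth of the `l`-Selmer group in the subfields `L` of `k(ζ_n)`, where the prime factors of `n`
are in a finite set `S₀` of odd primes different from `l`, and where the real places of `k` stay real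
in `L`. -/
theorem growth_ZS3 {l : ℕ} (hl : l.Prime) (hl2 : l ≠ 2) {S₀ : Finset ℕ}
    (hS₀ : ∀ p ∈ S₀, p.Prime ∧ p ≠ 2) (hlS : l ∉ S₀) {k N : Type} [Field k] [NumberField k]
    (hk : UnrL l k) [Field N] [NumberField N] [Algebra k N] [IsGalois k N]
    {E : WeierstrassCurve k} (hΔ : E.Δ ≠ 0)
    {T₀ : (E.map (algebraMap k N)).toAffine.Point} (hT0 : T₀ ≠ 0) (hTl : l • T₀ = 0)
    (hst : ∀ g : N ≃ₐ[k] N, ∃ c : ℕ, gp (V := E) rfl g T₀ = c • T₀)
    (hodd : ∀ (φ : N →+* ℂ) (g : N ≃ₐ[k] N), (∀ x, φ (g x) = (starRingEnd ℂ) (φ x)) →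
      gp (V := E) rfl g T₀ = -T₀)
    (S : Finset (HeightOneSpectrum (𝓞 k))) (hSl : ∀ v ∈ S, (l : 𝓞 k) ∈ v.asIdeal)
    (hgl : ∀ v ∈ S, IntAt (v.valuation k) E)
    (hS : ∀ 𝔫 : HeightOneSpectrum (𝓞 N), H73IS.below k 𝔫 ∈ S →
      ∃ x y hxy, T₀ = Affine.Point.some x y hxy ∧ 1 < 𝔫.valuation N x) :
    ∃ C : ℕ, ∀ (n : ℕ), n ≠ 0 → (∀ p : ℕ, p.Prime → p ∣ n → p ∈ S₀) →
      ∀ (L : Type) [Field L] [NumberField L] [Algebra k L],
      Nonempty (L →ₐ[k] CyclotomicField n k) →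
      (∀ ψ : L →+* ℂ,
        ComplexEmbedding.IsReal (ψ.comp (algebraMap k L)) → ComplexEmbedding.IsReal ψ) →
      ∀ (P : Finset (E.map (algebraMap k L)).toAffine.Point)
        (T' : Finset (Coch L (E.map (algebraMap k L)))),
      (∀ X : (E.map (algebraMap k L)).toAffine.Point, ∃ p ∈ P, ∃ S, X = p + l • S) →
      (∀ f, IsCocycle L (E.map (algebraMap k L)) f → IsLocTriv L (E.map (algebraMap k L)) f →
        IsCobound L (E.map (algebraMap k L)) (fun σ => l • f σ) →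
        ∃ t ∈ T', IsCobound L (E.map (algebraMap k L)) (fun σ => f σ - t σ)) →
      (∏ v ∈ S, Ideal.absNorm v.asIdeal) ^ Module.finrank k L ≤
        (l ^ InfinitePlace.nrComplexPlaces k) ^ Module.finrank k L *
          (C * (P.card * T'.card)) := by
  obtain ⟨D, hD0, hD⟩ := exists_bad hΔ hl.ne_zero
  obtain ⟨s, hs⟩ := count_ZS hS₀ (k := k) hD0
  refine ⟨(l ^ 3) ^ s * l ^ 3, ?_⟩
  intro n hn hnS L _ _ _ ⟨j⟩ hreal P T' hP hT'
  refine (growth_k3 hl hl2 hΔ hT0 hTl hst hodd hD0 hD S hSl hgl hS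
    (unrl_ZS hl hk hn (fun h => hlS (hnS l hl h)) j) hreal P hP T' hT').trans ?_
  refine Nat.mul_le_mul_left _ ?_
  rw [mul_assoc ((l ^ 3) ^ s) (l ^ 3)]
  exact Nat.mul_le_mul_right _ (Nat.pow_le_pow_right (pow_pos hl.pos 3) (hs n hn hnS L ⟨j⟩))

end H86Z
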