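import Pool.Agent.H86.ZG.Nt

/-!
Row Cq (about 120 lines): primes above `q` in a cyclotomic field.

PROOF. `M` from tot_le. Write `n = q ^ k * m` with `q ∤ m`. The number of primes of `C` above `q` (`Ideal.primesOver (Ideal.span {(q : ℤ)}) (𝓞 C)`) times `ramificationIdxIn * inertiaDegIn` is the degree `totient n` (`Ideal.ncard_primesOver_mul_ramificationIdxIn_mul_inertiaDegIn`, Galois; see how Mathlib/NumberTheory/NumberField/Cyclotomic/Ideal.lean and Galois.lean use it). `k = 0`: IsCyclotomicExtension.Rat.inertiaDegIn_eq_of_not_dvd (`= orderOf (q : ZMod m)`), ramificationIdxIn_eq_of_not_dvd (`= 1`). `k = k' + 1`: IsCyclotomicExtension.Rat.inertiaDegIn_eq (`= orderOf (q : ZMod m)`), ramificationIdxIn_eq (`= q^k' (q - 1) = totient (q^k)`), and `totient n = totient (q^k) * totient m`. So the number of primes is `totient m / orderOf q ≤ M` (`orderOf q ≠ 0`; `orderOf (q : ZMod m) = orderOf (ZMod.unitOfCoprime q _)`, orderOf_injective with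 Units.coeHom, as in Galois.lean line 150).
 The prime ideals `P` of `𝓞 C` with `(q : 𝓞 C) ∈ P` are those lying over `Ideal.span {(q : ℤ)}` (a maximal ideal of `ℤ`; `P.comap` contains `q` and is prime). Similar: L4_main or card_q in Pool/Agent/H10/GrowTower.lean. `n ≠ 0` gives `NeZero n`.
-/

/-!
Row Cq: primes above `q` in a cyclotomic field.
-/

set_option autoImplicit false

open NumberField

namespace H86Z

theorem Cq_set {q : ℕ} (hq : q.Prime) (C : Type) [Field C] [NumberField C] :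
    {P : Ideal (𝓞 C) | P.IsPrime ∧ (q : 𝓞 C) ∈ P} =
      Ideal.primesOver (Ideal.span {(q : ℤ)}) (𝓞 C) := by
  ext P
  constructor
  · rintro ⟨hP, hqP⟩
    refine ⟨hP, ⟨?_⟩⟩
    have hmax : (Ideal.span {(q : ℤ)}).IsMaximal := by
      have hprime : (Ideal.span {(q : ℤ)}).IsPrime :=
        (Ideal.span_singleton_prime (by exact_mod_cast hq.ne_zero)).2 (Nat.prime_iff_prime_int.1 hq)
      refine hprime.isMaximal ?_
      rw [Ne, Ideal.span_singleton_eq_bot]
      exact_mod_cast hq.ne_zero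
    refine hmax.eq_of_le ?_ ?_
    · exact (Ideal.IsPrime.under ℤ P).ne_top
    · rw [Ideal.span_singleton_le_iff_mem, Ideal.mem_comap]
      have : algebraMap ℤ (𝓞 C) (q : ℤ) = (q : 𝓞 C) := by simp
      rw [this]
      exact hqP
  · rintro ⟨hP, hL⟩
    refine ⟨hP, ?_⟩
    have h1 : (q : ℤ) ∈ Ideal.under ℤ P := by
      rw [← hL.over]
      exact Ideal.mem_span_singleton_self _
    have h2 := Ideal.mem_comap.1 h1
    have : algebraMap ℤ (𝓞 C) (q : ℤ) = (q : 𝓞 C) := by simp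
    rwa [this] at h2

theorem card_cyc {S₀ : Finset ℕ} (hS₀ : ∀ p ∈ S₀, p.Prime ∧ p ≠ 2) {q : ℕ} (hq : q.Prime) :
    ∃ M : ℕ, ∀ n : ℕ, n ≠ 0 → (∀ p : ℕ, p.Prime → p ∣ n → p ∈ S₀) →
      ∀ (C : Type) [Field C] [NumberField C] [IsCyclotomicExtension {n} ℚ C],
      Finite {P : Ideal (𝓞 C) // P.IsPrime ∧ (q : 𝓞 C) ∈ P} ∧
        Nat.card {P : Ideal (𝓞 C) // P.IsPrime ∧ (q : 𝓞 C) ∈ P} ≤ M := by
  obtain ⟨M, hM⟩ := tot_le hS₀ hq
  refine ⟨M, fun n hn hnS C _ _ _ => ?_⟩
  have hqF : Fact q.Prime := ⟨hq⟩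
  have hnz : NeZero n := ⟨hn⟩
  have hG : IsGalois ℚ C := IsCyclotomicExtension.isGalois {n} ℚ C
  have hmain := Ideal.ncard_primesOver_mul_ramificationIdxIn_mul_inertiaDegIn
    (Ideal.span {(q : ℤ)}) (𝓞 C) Gal(C/ℚ)
  have hcard : Nat.card Gal(C/ℚ) = n.totient := by
    rw [IsGalois.card_aut_eq_finrank, IsCyclotomicExtension.Rat.finrank n]
  rw [hcard, ← Cq_set hq C] at hmain
  obtain ⟨N, hN⟩ : ∃ N, N = {P : Ideal (𝓞 C) | P.IsPrime ∧ (q : 𝓞 C) ∈ P}.ncard := ⟨_, rfl⟩
  rw [← hN] at hmain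
  have hN0 : N ≠ 0 := by
    intro h0
    rw [h0, zero_mul] at hmain
    exact (Nat.totient_pos.2 (Nat.pos_of_ne_zero hn)).ne hmain
  have hNc : Nat.card {P : Ideal (𝓞 C) // P.IsPrime ∧ (q : 𝓞 C) ∈ P} = N := by
    rw [hN]
    exact Nat.card_coe_set_eq {P : Ideal (𝓞 C) | P.IsPrime ∧ (q : 𝓞 C) ∈ P}
  refine ⟨Nat.finite_of_card_ne_zero (by rw [hNc]; exact hN0), ?_⟩
  rw [hNc]
  clear hNc hN
  obtain ⟨k, m, hm, hnk⟩ := Nat.exists_eq_pow_mul_and_not_dvd hn q hq.ne_one
  have hm0 : m ≠ 0 := by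
    rintro rfl
    exact hm (dvd_zero _)
  have hmz : NeZero m := ⟨hm0⟩
  have hc : q.Coprime m := (Nat.Prime.coprime_iff_not_dvd hq).2 hm
  have hbound := hM m hm0 (fun p hp hpm => hnS p hp (by rw [hnk]; exact hpm.mul_left _)) hc
  have ho : orderOf (ZMod.unitOfCoprime q hc) = orderOf (q : ZMod m) := by
    rw [← orderOf_units, ZMod.coe_unitOfCoprime]
  have ho0 : 0 < orderOf (q : ZMod m) := by
    rw [← ho]
    exact orderOf_pos _
  rw [ho] at hbound
  rcases k with _ | k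
  · have hnm : n = m := by rw [hnk, pow_zero, one_mul]
    subst hnm
    rw [IsCyclotomicExtension.Rat.ramificationIdxIn_eq_of_not_dvd q C hm,
      IsCyclotomicExtension.Rat.inertiaDegIn_eq_of_not_dvd q C hm, one_mul] at hmain
    rw [← hmain] at hbound
    exact Nat.le_of_mul_le_mul_right hbound ho0
  · rw [IsCyclotomicExtension.Rat.ramificationIdxIn_eq n C hnk hm,
      IsCyclotomicExtension.Rat.inertiaDegIn_eq n C hnk hm] at hmain
    have htot : n.totient = q ^ k * (q - 1) * m.totient := by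
      rw [hnk, Nat.totient_mul (Nat.Coprime.pow_left _ hc), Nat.totient_prime_pow_succ hq]
    rw [htot] at hmain
    have hpos : 0 < q ^ k * (q - 1) :=
      Nat.mul_pos (pow_pos hq.pos _) (Nat.sub_pos_of_lt hq.one_lt)
    have h1 : N * orderOf (q : ZMod m) = m.totient := by
      apply Nat.eq_of_mul_eq_mul_left hpos
      rw [← hmain]
      ring
    rw [← h1] at hbound
    exact Nat.le_of_mul_le_mul_right hbound ho0

end H86Z
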