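import Pool.Agent.H86.ZG.Cq
import Pool.Agent.H86.IG.Kgr
import Pool.Agent.H10.GrowTower

/-!
Row Cz (about 120 lines): primes above `D` in the subfields of `k(ζ_n)`. Use only the STATEMENTS of Cq.

PROOF. First for `C := CyclotomicField n ℚ`: a place of `C` containing `D` contains a prime factor `q` of `D` (exists_prime_mem in H10/GrowTower.lean), so the number of these places is at most the sum over the prime factors `q` of `D` of the number `M_q` from card_cyc (see bad_count in H10/GrowTower.lean for the same computation; card_sub with `F = L`, `Algebra.id`, bounds the number of places by the number of prime ideals). Put `s := finrank ℚ k * ∑_{q ∣ D} M_q`.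
 Now let `K := CyclotomicField n k`. It is a cyclotomic extension of `k`, a number field, and has a ring homomorphism `C →+* K` (IsCyclotomicExtension: `C` is a splitting field of the cyclotomic polynomial over `ℚ`; e.g. `IsCyclotomicExtension.lift`-like maps / `Polynomial.SplittingField.lift` / Pool/Agent/H68/IM/Emb.lean or `IsAlgClosed`-free: the polynomial `cyclotomic n ℚ` splits in `K`). With this algebra structure `finrank C K ≤ finrank ℚ k`: `K = C k` (K is generated over `k` by a root of unity which is in the image of `C`: finrank_gen in H86/IK/Gen.lean or the compositum: `[K : ℚ] = [K : k][k : ℚ] ≤ totient n * [k : ℚ] = [C : ℚ] [k : ℚ]` and `[K : ℚ] = [C : ℚ] [K : C]`: this is the easiest way, `finrank k K ≤ totient n` because `K` is generated by a root of the cyclotomic polynomial, whose degree is `totient n`). ncard_above (H86/IG/Kgr.lean): the number of places of `K` containing `D` is at most `s`.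
 Finally `j : L →ₐ[k] K` makes `K` an extension of `L`: every place of `L` containing `D` is below one of `K` containing `D` (as card_sub in H10/GrowTower.lean; Ideal.nonempty_primesOver), so the number for `L` is at most the number for `K`.
-/

set_option autoImplicit false
open scoped Classical

open IsDedekindDomain NumberField Pool.Agent.H10 H86IG H5SW

namespace H86Z

theorem Cz_sub {L K : Type} [Field L] [NumberField L] [Field K] [NumberField K] [Algebra L K]
    {D : ℤ} (hD : D ≠ 0) :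
    {w : HeightOneSpectrum (𝓞 L) | (D : 𝓞 L) ∈ w.asIdeal}.ncard ≤
      {w : HeightOneSpectrum (𝓞 K) | (D : 𝓞 K) ∈ w.asIdeal}.ncard := by
  have hfin := bad_fin (L := K) hD
  have hsub : {w : HeightOneSpectrum (𝓞 L) | (D : 𝓞 L) ∈ w.asIdeal} ⊆
      (fun w : HeightOneSpectrum (𝓞 K) => w.under (𝓞 L)) ''
        {w : HeightOneSpectrum (𝓞 K) | (D : 𝓞 K) ∈ w.asIdeal} := by
    intro w hw
    obtain ⟨⟨P, hP, hPo⟩⟩ := Ideal.nonempty_primesOver (S := 𝓞 K) w.asIdeal
    have h1 : P.comap (algebraMap (𝓞 L) (𝓞 K)) = w.asIdeal := hPo.over.symm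
    have hDP : (D : 𝓞 K) ∈ P := by
      have h2 : (D : 𝓞 L) ∈ P.comap (algebraMap (𝓞 L) (𝓞 K)) := by
        rw [h1]
        exact hw
      rw [Ideal.mem_comap, map_intCast] at h2
      exact h2
    have hP0 : P ≠ ⊥ := by
      intro h0
      rw [h0, Ideal.mem_bot] at hDP
      exact hD (by exact_mod_cast hDP)
    refine ⟨⟨P, hP, hP0⟩, hDP, ?_⟩
    apply HeightOneSpectrum.ext
    exact h1
  exact (Set.ncard_le_ncard hsub (hfin.image _)).trans (Set.ncard_image_le hfin)

theorem Cz_fin {k K : Type} [Field k] [NumberField k] [Field K] [NumberField K] [Algebra k K]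
    {n : ℕ} (hn : n ≠ 0) [IsCyclotomicExtension {n} k K] :
    Module.finrank k K ≤ n.totient := by
  have : NeZero n := ⟨hn⟩
  have hζ := IsCyclotomicExtension.zeta_spec n k K
  rw [(hζ.powerBasis k).finrank, IsPrimitiveRoot.powerBasis_dim,
    ← Polynomial.natDegree_cyclotomic n k]
  apply Polynomial.natDegree_le_of_dvd
  · apply minpoly.dvd
    rw [Polynomial.aeval_def, Polynomial.eval₂_eq_eval_map, Polynomial.map_cyclotomic]
    exact Polynomial.IsRoot.def.1 (hζ.isRoot_cyclotomic (Nat.pos_of_ne_zero hn))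
  · exact Polynomial.cyclotomic_ne_zero n k

theorem Cz_deg {k K C : Type} [Field k] [NumberField k] [Field K] [NumberField K] [Algebra k K]
    [Field C] [NumberField C] [Algebra C K]
    {n : ℕ} (hn : n ≠ 0) [IsCyclotomicExtension {n} k K] [IsCyclotomicExtension {n} ℚ C] :
    Module.finrank C K ≤ Module.finrank ℚ k := by
  have : NeZero n := ⟨hn⟩
  have h1 : Module.finrank ℚ C * Module.finrank C K = Module.finrank ℚ K :=
    Module.finrank_mul_finrank ℚ C K
  have h2 : Module.finrank ℚ k * Module.finrank k K = Module.finrank ℚ K :=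
    Module.finrank_mul_finrank ℚ k K
  have h3 : Module.finrank ℚ C = n.totient :=
    IsCyclotomicExtension.finrank C (Polynomial.cyclotomic.irreducible_rat (Nat.pos_of_ne_zero hn))
  have h4 : Module.finrank k K ≤ n.totient := Cz_fin hn
  have h5 : 0 < n.totient := Nat.totient_pos.2 (Nat.pos_of_ne_zero hn)
  rw [h3] at h1
  have h6 : n.totient * Module.finrank C K ≤ n.totient * Module.finrank ℚ k := by
    rw [h1, ← h2, mul_comm n.totient]
    exact Nat.mul_le_mul_left _ h4
  exact Nat.le_of_mul_le_mul_left h6 h5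

theorem Cz_Q {S₀ : Finset ℕ} (hS₀ : ∀ p ∈ S₀, p.Prime ∧ p ≠ 2) {D : ℤ} (hD : D ≠ 0) :
    ∃ s : ℕ, ∀ (n : ℕ), n ≠ 0 → (∀ p : ℕ, p.Prime → p ∣ n → p ∈ S₀) →
      ∀ (C : Type) [Field C] [NumberField C] [IsCyclotomicExtension {n} ℚ C],
      {w : HeightOneSpectrum (𝓞 C) | (D : 𝓞 C) ∈ w.asIdeal}.ncard ≤ s := by
  have hex : ∀ q : ℕ, ∃ M : ℕ, q.Prime → ∀ n : ℕ, n ≠ 0 →
      (∀ p : ℕ, p.Prime → p ∣ n → p ∈ S₀) →
      ∀ (C : Type) [Field C] [NumberField C] [IsCyclotomicExtension {n} ℚ C],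
      Finite {P : Ideal (𝓞 C) // P.IsPrime ∧ (q : 𝓞 C) ∈ P} ∧
        Nat.card {P : Ideal (𝓞 C) // P.IsPrime ∧ (q : 𝓞 C) ∈ P} ≤ M := by
    intro q
    by_cases hq : q.Prime
    · obtain ⟨M, hM⟩ := card_cyc hS₀ hq
      exact ⟨M, fun _ => hM⟩
    · exact ⟨0, fun h => absurd h hq⟩
  choose M hM using hex
  have hD0 : D.natAbs ≠ 0 := Int.natAbs_ne_zero.mpr hD
  refine ⟨∑ q ∈ D.natAbs.primeFactors, M q, ?_⟩
  intro n hn hnS C _ _ _
  have hsub : {w : HeightOneSpectrum (𝓞 C) | (D : 𝓞 C) ∈ w.asIdeal} ⊆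
      ⋃ q ∈ D.natAbs.primeFactors, {w : HeightOneSpectrum (𝓞 C) | (q : 𝓞 C) ∈ w.asIdeal} := by
    intro w hw
    obtain ⟨q, hq, hqD, hqw⟩ := exists_prime_mem hD w hw
    exact Set.mem_biUnion (Nat.mem_primeFactors.mpr ⟨hq, hqD, hD0⟩) hqw
  have hfin : (⋃ q ∈ D.natAbs.primeFactors,
      {w : HeightOneSpectrum (𝓞 C) | (q : 𝓞 C) ∈ w.asIdeal}).Finite := by
    refine Set.Finite.biUnion (Finset.finite_toSet _) fun q hq => ?_
    have hq0 : ((q : ℕ) : ℤ) ≠ 0 := by
      exact_mod_cast (Nat.prime_of_mem_primeFactors (Finset.mem_coe.mp hq)).ne_zero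
    have := bad_fin (L := C) hq0
    simpa using this
  refine (Set.ncard_le_ncard hsub hfin).trans ((Finset.set_ncard_biUnion_le _ _).trans ?_)
  refine Finset.sum_le_sum fun q hq => ?_
  have hqp := Nat.prime_of_mem_primeFactors hq
  obtain ⟨hf, hc⟩ := hM q hqp n hn hnS C
  exact (card_sub (L := C) (F := C) hf).trans hc

theorem Cz_alg {C : Type} [Field C] [CharZero C] {n : ℕ} (i1 i2 : Algebra ℚ C)
    (h : @IsCyclotomicExtension {n} ℚ C _ _ i1) : @IsCyclotomicExtension {n} ℚ C _ _ i2 := by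
  have h1 : i1 = i2 := Subsingleton.elim i1 i2
  rw [← h1]
  exact h

theorem Cz_K {S₀ : Finset ℕ} (hS₀ : ∀ p ∈ S₀, p.Prime ∧ p ≠ 2) {k : Type} [Field k]
    [NumberField k] {D : ℤ} (hD : D ≠ 0) :
    ∃ s : ℕ, ∀ (n : ℕ), n ≠ 0 → (∀ p : ℕ, p.Prime → p ∣ n → p ∈ S₀) →
      ∀ (K : Type) [Field K] [NumberField K] [Algebra k K] [IsCyclotomicExtension {n} k K],
      {w : HeightOneSpectrum (𝓞 K) | (D : 𝓞 K) ∈ w.asIdeal}.ncard ≤ s := by
  obtain ⟨s, hs⟩ := Cz_Q hS₀ hD
  refine ⟨Module.finrank ℚ k * s, ?_⟩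
  intro n hn hnS K _ _ _ _
  have : NeZero n := ⟨hn⟩
  have hζ := IsCyclotomicExtension.zeta_spec n k K
  obtain ⟨ζ, hζdef⟩ : ∃ ζ, ζ = IsCyclotomicExtension.zeta n k K := ⟨_, rfl⟩
  rw [← hζdef] at hζ
  have hcyc := Cz_alg _ DivisionRing.toRatAlgebra
    (hζ.intermediateField_adjoin_isCyclotomicExtension ℚ)
  refine (ncard_above (K := IntermediateField.adjoin ℚ {ζ}) hD).trans ?_
  exact Nat.mul_le_mul (Cz_deg (k := k) hn) (hs n hn hnS _)

theorem count_ZS {S₀ : Finset ℕ} (hS₀ : ∀ p ∈ S₀, p.Prime ∧ p ≠ 2) {k : Type} [Field k]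
    [NumberField k] {D : ℤ} (hD : D ≠ 0) :
    ∃ s : ℕ, ∀ (n : ℕ), n ≠ 0 → (∀ p : ℕ, p.Prime → p ∣ n → p ∈ S₀) →
      ∀ (L : Type) [Field L] [NumberField L] [Algebra k L],
      Nonempty (L →ₐ[k] CyclotomicField n k) →
      {w : HeightOneSpectrum (𝓞 L) | (D : 𝓞 L) ∈ w.asIdeal}.ncard ≤ s := by
  obtain ⟨s, hs⟩ := Cz_K hS₀ (k := k) hD
  refine ⟨s, ?_⟩
  intro n hn hnS L _ _ _ hL
  obtain ⟨j⟩ := hL
  have : NeZero n := ⟨hn⟩
  have hne : NeZero ((n : ℕ) : k) := ⟨Nat.cast_ne_zero.2 hn⟩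
  have hcyc : IsCyclotomicExtension {n} k (CyclotomicField n k) :=
    CyclotomicField.isCyclotomicExtension n k
  let _ : Algebra L (CyclotomicField n k) := j.toRingHom.toAlgebra
  exact (Cz_sub (L := L) (K := CyclotomicField n k) hD).trans (hs n hn hnS (CyclotomicField n k))

end H86Z
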