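import Mathlib

/-!
Row Nt (about 100 lines): the order of `q` modulo `m` when all prime factors of `m` are in a fixed finite set.

PROOF. `M := ∏_{p ∈ S₀, p ≠ q} (q ^ (p - 1) - 1)` (not zero, as `q ≥ 2` and `p ≥ 3`). Let `o := orderOf q` modulo `m`; claim `m ∣ M * o`, so `totient m ≤ m ≤ M * o` (`o ≠ 0`, `M ≠ 0`). It is enough (Nat.factorization / `Nat.factorization_le_iff_dvd`, or padicValNat) that for every prime `p ∣ m` (`p ∈ S₀`, `p` odd, `p ≠ q` because `q` is prime to `m`), with `p ^ a ∣ m`: `p ^ a ∣ M * o`. `m ∣ q^o - 1` so `p^a ∣ q^o - 1 ∣ q^((p-1) o) - 1 = (q^(p-1))^o - 1`. `p ∣ q^(p-1) - 1` (Fermat), `p ∤ q^(p-1)`, `p` odd: lifting the exponent (padicValNat.pow_sub_pow / Nat.emultiplicity_pow_sub_pow): `v_p((q^(p-1))^o - 1) = v_p(q^(p-1) - 1) + v_p(o)`. So `a ≤ v_p(q^(p-1) - 1) + v_p(o) ≤ v_p(M) + v_p(o) = v_p(M o)`.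
-/

set_option autoImplicit false

namespace H86Z

theorem tot_le {S₀ : Finset ℕ} (hS₀ : ∀ p ∈ S₀, p.Prime ∧ p ≠ 2) {q : ℕ} (hq : q.Prime) :
    ∃ M : ℕ, ∀ m : ℕ, m ≠ 0 → (∀ p : ℕ, p.Prime → p ∣ m → p ∈ S₀) → ∀ hc : q.Coprime m,
      m.totient ≤ M * orderOf (ZMod.unitOfCoprime q hc) := by
  have h2 : ∀ p ∈ S₀, 1 < q ^ (p - 1) := by
    intro p hp
    have h3 := (hS₀ p hp).1.two_le
    exact Nat.one_lt_pow (by omega) hq.one_lt
  have hM0 : (∏ p ∈ S₀, (q ^ (p - 1) - 1)) ≠ 0 := by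
    rw [Finset.prod_ne_zero_iff]
    intro p hp
    have := h2 p hp
    omega
  refine ⟨∏ p ∈ S₀, (q ^ (p - 1) - 1), fun m hm hpS hc => ?_⟩
  have hmz : NeZero m := ⟨hm⟩
  obtain ⟨M, hM⟩ : ∃ M, M = ∏ p ∈ S₀, (q ^ (p - 1) - 1) := ⟨_, rfl⟩
  obtain ⟨o, ho⟩ : ∃ o, o = orderOf (ZMod.unitOfCoprime q hc) := ⟨_, rfl⟩
  have ho0 : 0 < o := by
    rw [ho]
    exact orderOf_pos _
  have hqo : 1 ≤ q ^ o := Nat.one_le_pow _ _ hq.pos
  have hdvd : m ∣ q ^ o - 1 := by
    have h3 : (ZMod.unitOfCoprime q hc) ^ o = 1 := by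
      rw [ho]
      exact pow_orderOf_eq_one _
    have h4 := congrArg (fun u : (ZMod m)ˣ => (u : ZMod m)) h3
    simp only [Units.val_pow_eq_pow_val, ZMod.coe_unitOfCoprime, Units.val_one] at h4
    rw [← ZMod.natCast_eq_zero_iff, Nat.cast_sub hqo, Nat.cast_pow, h4, Nat.cast_one, sub_self]
  rw [← hM] at hM0 ⊢
  rw [← ho]
  have hMo : M * o ≠ 0 := Nat.mul_ne_zero hM0 ho0.ne'
  have hqo1 : q ^ o - 1 ≠ 0 := by
    have := Nat.one_lt_pow ho0.ne' hq.one_lt
    omega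
  have key : m ∣ M * o := by
    rw [← Nat.factorization_le_iff_dvd hm hMo]
    intro p
    by_cases hp : p.Prime ∧ p ∣ m
    · obtain ⟨hp1, hp2⟩ := hp
      have hf : Fact p.Prime := ⟨hp1⟩
      have hpS' := hpS p hp1 hp2
      have hp3 := (hS₀ p hpS').2
      have hpq : p ≠ q := by
        intro h
        rw [h] at hp2
        have h5 : q ∣ Nat.gcd q m := Nat.dvd_gcd dvd_rfl hp2
        rw [Nat.Coprime.gcd_eq_one hc] at h5
        exact hq.one_lt.ne' (Nat.dvd_one.1 h5)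
      have hnd : ¬ p ∣ q := fun h => hpq ((Nat.prime_dvd_prime_iff_eq hp1 hq).1 h)
      have hcop : Nat.Coprime q p :=
        Nat.Coprime.symm ((Nat.Prime.coprime_iff_not_dvd hp1).2 hnd)
      have hfer : p ∣ q ^ (p - 1) - 1 := by
        have h6 := Nat.ModEq.pow_totient hcop
        rw [Nat.totient_prime hp1] at h6
        exact (Nat.modEq_iff_dvd' (Nat.one_le_pow _ _ hq.pos)).1 h6.symm
      have hlte := padicValNat.pow_sub_pow (p := p) (x := q ^ (p - 1)) (y := 1)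
        (hp1.odd_of_ne_two hp3) (h2 p hpS') hfer (fun h => hnd (hp1.dvd_of_dvd_pow h)) ho0.ne'
      rw [one_pow, ← pow_mul, mul_comm (p - 1) o, pow_mul] at hlte
      have h7 : q ^ o - 1 ∣ (q ^ o) ^ (p - 1) - 1 := by
        have h8 := Nat.sub_dvd_pow_sub_pow (q ^ o) 1 (p - 1)
        rw [one_pow] at h8
        exact h8
      have hp1' : p - 1 ≠ 0 := by
        have := hp1.two_le
        omega
      have h9 : (q ^ o) ^ (p - 1) - 1 ≠ 0 := by
        have := Nat.one_lt_pow hp1' (Nat.one_lt_pow ho0.ne' hq.one_lt)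
        omega
      have h10 := (Nat.factorization_le_iff_dvd hm h9).2 (hdvd.trans h7) p
      have hq1 : q ^ (p - 1) - 1 ≠ 0 := by
        have := h2 p hpS'
        omega
      have h11 : q ^ (p - 1) - 1 ∣ M := by
        rw [hM]
        exact Finset.dvd_prod_of_mem (fun p => q ^ (p - 1) - 1) hpS'
      have h12 := (Nat.factorization_le_iff_dvd hq1 hM0).2 h11 p
      rw [Nat.factorization_mul hM0 ho0.ne']
      rw [Nat.factorization_def _ hp1, Nat.factorization_def _ hp1] at h10 h12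
      rw [Finsupp.add_apply, Nat.factorization_def _ hp1, Nat.factorization_def _ hp1,
        Nat.factorization_def _ hp1]
      omega
    · have h4 : m.factorization p = 0 := by
        by_cases h5 : p.Prime
        · exact Nat.factorization_eq_zero_of_not_dvd fun h6 => hp ⟨h5, h6⟩
        · exact Nat.factorization_eq_zero_of_not_prime _ h5
      rw [h4]
      exact Nat.zero_le _
  exact (Nat.totient_le m).trans (Nat.le_of_dvd (Nat.pos_of_ne_zero hMo) key)

end H86Z
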